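import Pool.Agent.Y626.WG.Defs
import Pool.Agent.H628R3.RO.M1

/-!
# Oracles which refer to themselves, and a lemma of Borel and Cantelli

(These are copied from `Pool.Agent.W938.QX.Fam` and `Pool.Agent.W938.QM.Fam`.)
-/

set_option autoImplicit false

namespace Pool.Agent.Y626.WC

open Pool.Agent.NPC Pool.Agent.H620R2.Gauge
open Pool.Agent.H628R3.RO (randomOracle)

/-! ### The oracle which refers to itself -/

/-- The oracle `B` on the strings of length less than `m`. -/
def cut (B : Oracle) (m : ℕ) : Oracle := fun z => if z.length < m then B z else false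

/-- The approximations. -/
def appr (F : List Bool → Oracle → Bool) : ℕ → Oracle
  | 0 => fun _ => false
  | m + 1 => fun z => if z.length = m then F z (appr F m) else appr F m z

lemma appr_high (F : List Bool → Oracle → Bool) : ∀ (m : ℕ) (z : List Bool), m ≤ z.length →
    appr F m z = false
  | 0, _, _ => rfl
  | m + 1, z, h => by
    simp only [appr]
    rw [if_neg (by omega)]
    exact appr_high F m z (by omega)

lemma appr_low (F : List Bool → Oracle → Bool) : ∀ (m : ℕ) (z : List Bool), z.length < m →
    appr F m z = F z (appr F z.length)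
  | 0, _, h => absurd h (Nat.not_lt_zero _)
  | m + 1, z, h => by
    simp only [appr]
    by_cases he : z.length = m
    · rw [if_pos he, he]
    · rw [if_neg he]
      exact appr_low F m z (by omega)

/-- There is an oracle which is given by its values on the shorter strings. -/
theorem exists_self (F : List Bool → Oracle → Bool) :
    ∃ B : Oracle, ∀ z, B z = F z (cut B z.length) := by
  refine ⟨fun z => F z (appr F z.length), fun z => ?_⟩
  have e : cut (fun z => F z (appr F z.length)) z.length = appr F z.length := by
    funext y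
    unfold cut
    by_cases h : y.length < z.length
    · rw [if_pos h, appr_low F _ y h]
    · rw [if_neg h, appr_high F _ y (not_lt.1 h)]
  rw [e]

lemma cut_cut (B : Oracle) {m n : ℕ} (h : m ≤ n) : cut (cut B n) m = cut B m := by
  funext z
  unfold cut
  by_cases h1 : z.length < m
  · rw [if_pos h1, if_pos h1, if_pos (h1.trans_le h)]
  · rw [if_neg h1, if_neg h1]

/-- The code of a string. -/
def cd : List Bool → ℕ
  | [] => 1
  | b :: x => 2 * cd x + b.toNat

lemma cd_pos : ∀ x : List Bool, 1 ≤ cd x
  | [] => le_rfl
  | b :: x => by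
    have := cd_pos x
    simp only [cd]
    omega

lemma cd_lt : ∀ x : List Bool, cd x < 2 ^ (x.length + 1)
  | [] => by simp [cd]
  | b :: x => by
    have := cd_lt x
    have hb : b.toNat ≤ 1 := Bool.toNat_le b
    simp only [cd, List.length_cons]
    rw [pow_succ]
    omega

lemma cd_inj : ∀ x y : List Bool, cd x = cd y → x = y
  | [], [], _ => rfl
  | [], b :: y, h => by
    have := cd_pos y
    simp only [cd] at h
    omega
  | b :: x, [], h => by
    have := cd_pos x
    simp only [cd] at h
    omega
  | b :: x, c :: y, h => by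
    simp only [cd] at h
    have h1 : b.toNat ≤ 1 := Bool.toNat_le b
    have h2 : c.toNat ≤ 1 := Bool.toNat_le c
    have h3 : cd x = cd y := by omega
    have h4 : b.toNat = c.toNat := by omega
    have h5 : b = c := by
      cases b <;> cases c <;> simp at h4 ⊢
    rw [cd_inj x y h3, h5]

theorem bc (Bad : List Bool → Set Oracle)
    (h : ∀ x, randomOracle.real (Bad x) ≤ (1 / 2) ^ (2 * x.length + 2)) :
    ∀ᵐ A ∂randomOracle, {x | A ∈ Bad x}.Finite := by
  refine MeasureTheory.ae_finite_setOfPred_mem ?_
  have hs : Summable fun x : List Bool => 1 / ((cd x : ℕ) : ℝ) ^ 2 :=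
    (Real.summable_one_div_nat_pow.2 (by norm_num : 1 < 2)).comp_injective
      (i := cd) (fun x y hxy => cd_inj x y hxy)
  refine ne_top_of_le_ne_top hs.tsum_ofReal_ne_top (ENNReal.tsum_le_tsum fun x => ?_)
  rw [← ENNReal.ofReal_toReal (MeasureTheory.measure_ne_top randomOracle (Bad x))]
  refine ENNReal.ofReal_le_ofReal ((h x).trans ?_)
  have h1 : ((cd x : ℕ) : ℝ) ≤ 2 ^ (x.length + 1) := by exact_mod_cast (cd_lt x).le
  have h2 : (0 : ℝ) < ((cd x : ℕ) : ℝ) := by exact_mod_cast cd_pos x
  have h3 : ((1 : ℝ) / 2) ^ (2 * x.length + 2) = 1 / (2 ^ (x.length + 1)) ^ 2 := by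
    rw [one_div_pow, ← pow_mul]
    congr 2
    ring
  rw [h3]
  gcongr

end Pool.Agent.Y626.WC
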