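import Pool.Agent.Y626.WC.Dt
import Pool.Agent.Y626.WC.Self
import Pool.Agent.Y626.WG.One

/-! Decision trees for existential sentences relative to a random oracle. -/

set_option autoImplicit false

namespace Pool.Agent.Y626.WC

open MeasureTheory Pool.Agent.NPC Pool.Agent.H620R2.Gauge Pool.Agent.TH678.GC
  Pool.Agent.Y626.WG
open Pool.Agent.H628R3.RO (randomOracle prob)

theorem getD_len (I : Inst) (i : ℕ) : (I.labels.getD i []).length ≤ (bits I).length := by
  rw [List.getD_eq_getElem?_getD]
  rcases h : I.labels[i]? with _ | a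
  · simp
  · rw [Option.getD_some, bits_length]
    have e : sz I = sz (I.labels, I.rels, I.blocks, I.atoms, I.acc) := rfl
    rw [e, sz_pair]
    have h1 := sz_le_of_mem (List.mem_of_getElem? h)
    have h2 := length_lt_sz a
    omega

theorem list_len (I : Inst) {r : ℕ} {l : List ℕ} (hl : (r, l) ∈ I.atoms) :
    l.length ≤ (bits I).length := by
  rw [bits_length]
  have e : sz I = sz (I.labels, I.rels, I.blocks, I.atoms, I.acc) := rfl
  rw [e, sz_pair, sz_pair, sz_pair, sz_pair]
  have h1 := sz_le_of_mem hl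
  rw [sz_pair] at h1
  have h2 := length_lt_sz l
  omega

theorem flat_len (I : Inst) {r : ℕ} {l : List ℕ} (hl : (r, l) ∈ I.atoms) (v : List ℕ) :
    (l.flatMap fun i => I.labels.getD (v.getD i 0) []).length ≤ (bits I).length ^ 2 := by
  have h1 : ∀ l : List ℕ, (l.flatMap fun i => I.labels.getD (v.getD i 0) []).length ≤
      l.length * (bits I).length := by
    intro l
    induction l with
    | nil => simp
    | cons a l ih =>
      rw [List.flatMap_cons, List.length_append, List.length_cons, Nat.succ_mul]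
      have := getD_len I (v.getD a 0)
      omega
  rw [pow_two]
  exact (h1 l).trans (Nat.mul_le_mul_right _ (list_len I hl))

/-- the question to the first oracle -/
def tl : List Bool → List (List Bool)
  | false :: z => [z]
  | _ => []

theorem tl_len (q : List Bool) : (tl q).length ≤ 1 := by
  rcases q with _ | ⟨b, q⟩
  · simp [tl]
  · cases b <;> simp [tl]

theorem tl_mem {q z : List Bool} (h : z ∈ tl q) : z.length ≤ q.length := by
  rcases q with _ | ⟨b, q⟩
  · simp [tl] at h
  · cases b
    · simp only [tl, List.mem_singleton] at h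
      subst h
      simp
    · simp [tl] at h

/-- the questions to the first oracle -/
def DD (I : Inst) (v : List ℕ) : Finset (List Bool) :=
  (I.atoms.flatMap fun p => tl (p.2.flatMap fun i => I.labels.getD (v.getD i 0) [])).toFinset

theorem card_DD (I : Inst) (v : List ℕ) : (DD I v).card ≤ I.param := by
  refine le_trans (List.toFinset_card_le _) (le_trans ?_ (length_le_param I))
  have h : ∀ l : List (ℕ × List ℕ), (l.flatMap fun p => tl (p.2.flatMap fun i =>
      I.labels.getD (v.getD i 0) [])).length ≤ l.length := by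
    intro l
    induction l with
    | nil => simp
    | cons a l ih =>
      rw [List.flatMap_cons, List.length_append, List.length_cons]
      have := tl_len (a.2.flatMap fun i => I.labels.getD (v.getD i 0) [])
      omega
  exact h _

theorem DD_len (I : Inst) {v : List ℕ} {z : List Bool} (hz : z ∈ DD I v) :
    z.length ≤ (bits I).length ^ 2 := by
  rw [DD, List.mem_toFinset, List.mem_flatMap] at hz
  obtain ⟨⟨r, l⟩, h1, h2⟩ := hz
  exact (tl_mem h2).trans (flat_len I h1 v)

theorem atoms_loc (I : Inst) {A A' E : Oracle} {v : List ℕ} (h : ∀ z ∈ DD I v, A z = A' z) :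
    I.atoms.map (I.atom (join A E) v) = I.atoms.map (I.atom (join A' E) v) := by
  refine List.map_congr_left fun a ha => ?_
  obtain ⟨r, l⟩ := a
  cases r with
  | zero =>
    show join A E _ = join A' E _
    rcases hq : (l.flatMap fun i => I.labels.getD (v.getD i 0) []) with _ | ⟨b, q⟩
    · rfl
    · cases b
      · refine h q ?_
        rw [DD, List.mem_toFinset, List.mem_flatMap]
        refine ⟨(0, l), ha, ?_⟩
        dsimp only
        rw [hq]
        simp [tl]
      · rfl
  | succ r => rfl

theorem atoms_cut (I : Inst) {A E : Oracle} {m : ℕ} (hm : (bits I).length ^ 2 ≤ m) (v : List ℕ) :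
    I.atoms.map (I.atom (join A (cut E (m + 1))) v) = I.atoms.map (I.atom (join A E) v) := by
  refine List.map_congr_left fun a ha => ?_
  obtain ⟨r, l⟩ := a
  cases r with
  | zero =>
    show join A _ _ = join A E _
    have h1 := flat_len I ha v
    rcases hq : (l.flatMap fun i => I.labels.getD (v.getD i 0) []) with _ | ⟨b, q⟩
    · rfl
    · rw [hq, List.length_cons] at h1
      cases b
      · rfl
      · show cut E (m + 1) q = E q
        unfold cut
        rw [if_pos (by omega)]
  | succ r => rfl

theorem sat_one {I : Inst} (hI : I.IsW 1) (A : Oracle) : I.Sat A ↔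
    ∃ v : List ℕ, (v.length = I.blocks.sum ∧ ∀ a ∈ v, a < I.labels.length) ∧
      I.atoms.map (I.atom A v) ∈ I.acc := by
  have h1 := hI.1.2
  unfold Inst.Sat
  rcases hb : I.blocks with _ | ⟨s, bs⟩
  · show I.atoms.map (I.atom A []) ∈ I.acc ↔ _
    constructor
    · intro h
      exact ⟨[], by simp, h⟩
    · rintro ⟨v, ⟨h2, _⟩, h3⟩
      rw [List.sum_nil, List.length_eq_zero_iff] at h2
      subst h2
      exact h3
  · rw [hb, List.length_cons] at h1
    have h2 : bs = [] := List.length_eq_zero_iff.1 (by omega)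
    subst h2
    constructor
    · rintro ⟨w, h3, h4, h5⟩
      exact ⟨w, ⟨by simpa using h3, h4⟩, h5⟩
    · rintro ⟨v, ⟨h3, h4⟩, h5⟩
      exact ⟨v, by simpa using h3, h4, h5⟩

theorem sat_cut {I : Inst} (hI : I.IsW 1) {A E : Oracle} {m : ℕ} (hm : (bits I).length ^ 2 ≤ m) :
    I.Sat (join A (cut E (m + 1))) ↔ I.Sat (join A E) := by
  rw [sat_one hI, sat_one hI]
  refine exists_congr fun v => and_congr_right fun _ => ?_
  rw [atoms_cut I hm]

/-- The strings of length at most `q`. -/
noncomputable def Sq (q : ℕ) : Finset (List Bool) := (List.finite_length_le Bool q).toFinset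

theorem mem_Sq {q : ℕ} {z : List Bool} : z ∈ Sq q ↔ z.length ≤ q := by
  unfold Sq
  rw [Set.Finite.mem_toFinset]
  rfl

/-- The bound for the number of questions. -/
def bd (w n : ℕ) : ℕ := 2 ^ w * w ^ 2 * (2 * n + 2)

theorem one_inst (E : Oracle) {I : Inst} (hI : I.IsW 1) (n : ℕ) (hn : (bits I).length ^ 2 ≤ n) :
    ∃ t : DT, t.depth ≤ bd I.param n ∧ (∀ h, (t.nx h).length ≤ n) ∧
      prob {A | ¬ (t.eval A = true ↔ I.Sat (join A E))} ≤ (1 / 2) ^ (2 * n + 2) := by
  obtain ⟨t, h1, h2, h3⟩ := tree I.param (2 ^ I.param * (2 * n + 2)) (Sq n) I.param le_rfl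
    (List ℕ) (fun v A => (v.length = I.blocks.sum ∧ ∀ a ∈ v, a < I.labels.length) ∧
      I.atoms.map (I.atom (join A E) v) ∈ I.acc) (DD I)
    (fun v A A' h => by rw [atoms_loc I h])
    (fun v z hz => mem_Sq.2 ((DD_len I hz).trans hn))
    (fun v _ => card_DD I v)
  refine ⟨t, h1.trans (le_of_eq ?_), fun h => ?_, ?_⟩
  · unfold bd
    ring
  · rcases DT.nx_mem t h2 h with h4 | h4
    · rw [h4]
      simp
    · obtain ⟨v, hv⟩ := Set.mem_iUnion.1 h4
      exact (DD_len I (Finset.mem_coe.1 hv)).trans hn
  · refine le_trans (le_of_eq ?_) (h3.trans (err_le _ _))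
    congr 1
    ext A
    show ¬ _ ↔ ¬ _
    rw [sat_one hI]

theorem inst (E : Oracle) (y : List Bool) : ∃ (t : DT) (Bad : Set Oracle),
    randomOracle.real Bad ≤ (1 / 2) ^ (2 * y.length + 2) ∧ (∀ h, (t.nx h).length ≤ y.length) ∧
      ∀ I : Inst, (unpair y).2 = bits I → I.IsW 1 → (bits I).length ^ 2 ≤ y.length →
        t.depth ≤ bd I.param y.length ∧ ∀ A ∉ Bad, (t.eval A = true ↔ I.Sat (join A E)) := by
  by_cases H : ∃ I : Inst, (unpair y).2 = bits I ∧ I.IsW 1 ∧
      (bits I).length ^ 2 ≤ y.length
  · obtain ⟨I, h1, h2, h3⟩ := H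
    obtain ⟨t, h4, h5, h6⟩ := one_inst E h2 _ h3
    refine ⟨t, _, h6, h5, fun I' h1' _ _ => ?_⟩
    rw [h1] at h1'
    obtain rfl := bits_injective h1'
    exact ⟨h4, fun A hA => not_not.1 hA⟩
  · refine ⟨DT.leaf false, ∅, ?_, fun h => ?_, fun I h1 h2 h3 => absurd ⟨I, h1, h2, h3⟩ H⟩
    · rw [measureReal_empty]
      positivity
    · cases h <;> simp [DT.nx]

end Pool.Agent.Y626.WC
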