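import Pool.Agent.H620R2.GaugeR.R1
import Pool.Agent.H620R2.GaugeR.R2
import Pool.Agent.H593R3.DST.Map
import Pool.Agent.Y626.WG.Defs

/-!
# The classical simulation: questions which are read bit by bit
-/

set_option autoImplicit false

namespace Pool.Agent.Y626.WC

open Pool.Agent.NPC Pool.Agent.H620R2.Gauge Pool.Agent.TH678.GC

/-- A question about the instance `y`, the history `h` and the position `v`. -/
def ec (y h v : List Bool) : List Bool := pairBits h (pairBits v (pairBits y []))

lemma ec_length (y h v : List Bool) :
    (ec y h v).length = 2 * h.length + 2 * v.length + 2 * y.length + 3 := by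
  unfold ec
  rw [length_pairBits, length_pairBits,
    length_pairBits]
  simp only [List.length_nil]
  omega

lemma ec_inj {y h v y' h' v' : List Bool} (e : ec y h v = ec y' h' v') :
    y = y' ∧ h = h' ∧ v = v' := by
  unfold ec at e
  have h3 := congrArg unpair e
  rw [unpair_pairBits, unpair_pairBits, Prod.mk.injEq] at h3
  have h4 := congrArg unpair h3.2
  rw [unpair_pairBits, unpair_pairBits, Prod.mk.injEq] at h4
  have h5 := congrArg unpair h4.2
  rw [unpair_pairBits, unpair_pairBits, Prod.mk.injEq] at h5
  exact ⟨h5.1, h3.1, h4.1⟩

lemma poly_ec {α : Type} [TEnc α] {y h v : α → List Bool} (hy : NPC.Poly y) (hh : NPC.Poly h)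
    (hv : NPC.Poly v) : NPC.Poly (fun a => ec (y a) (h a) (v a)) :=
  Pool.Agent.H622R2.poly_pairBits hh (Pool.Agent.H622R2.poly_pairBits hv
    (Pool.Agent.H622R2.poly_pairBits hy (NPC.Poly.const [])))

/-- The questions with the tag `b`. -/
def rq (b : Bool) (s : List Bool) : List (List Bool) :=
  (List.range (unpair s).1.length).map (fun t => ec (unpair s).1 (unpair s).2 (b :: t.bits))

lemma poly_rq (b : Bool) : NPC.Poly (rq b) := by
  have hu : UPoly (fun s : List Bool => (unpair s).1.length) :=
    UPoly.length (NPC.Poly.fst poly_unpair)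
  exact NPC.Poly.map (F := fun (s : List Bool) (t : ℕ) =>
    ec (unpair s).1 (unpair s).2 (b :: t.bits)) hu.range
    (poly_ec ((NPC.Poly.fst poly_unpair).comp (NPC.Poly.fst NPC.Poly.id))
      ((NPC.Poly.snd poly_unpair).comp (NPC.Poly.fst NPC.Poly.id))
      (NPC.Poly.cons (NPC.Poly.const b) (NPC.Poly.natBits (NPC.Poly.snd NPC.Poly.id))))

/-- The combination of the two strings of answers. -/
def cmb (p v : List Bool) : List Bool := ((p.zip v).filter Prod.fst).map Prod.snd

lemma poly_cmb {α : Type} [TEnc α] {p v : α → List Bool} (hp : NPC.Poly p) (hv : NPC.Poly v) :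
    NPC.Poly (fun a => cmb (p a) (v a)) :=
  NPC.Poly.map (F := fun (_ : α) (e : Bool × Bool) => e.2)
    (NPC.Poly.filter (p := fun (_ : α) (e : Bool × Bool) => e.1) (NPC.Poly.zip hp hv)
      (NPC.Poly.fst (NPC.Poly.snd NPC.Poly.id))) (NPC.Poly.snd (NPC.Poly.snd NPC.Poly.id))

lemma cmb_eq (z : List Bool) (n : ℕ) (hz : z.length ≤ n) :
    cmb ((List.range n).map fun t => decide (t < z.length))
      ((List.range n).map fun t => z.getD t false) = z := by
  unfold cmb
  have h1 : (((List.range n).map fun t => decide (t < z.length)).zip
      ((List.range n).map fun t => z.getD t false)) =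
      (List.range n).map fun t => (decide (t < z.length), z.getD t false) := by
    rw [List.zip_map']
  rw [h1, List.filter_map, List.map_map]
  have h2 : (List.range n).filter (Prod.fst ∘ fun t => (decide (t < z.length), z.getD t false)) =
      List.range z.length := by
    obtain ⟨m, rfl⟩ := Nat.exists_eq_add_of_le hz
    rw [List.range_add, List.filter_append]
    have e1 : (List.range z.length).filter
        (Prod.fst ∘ fun t => (decide (t < z.length), z.getD t false)) = List.range z.length := by
      rw [List.filter_eq_self]
      intro t ht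
      simpa using List.mem_range.1 ht
    have e2 : ((List.range m).map (z.length + ·)).filter
        (Prod.fst ∘ fun t => (decide (t < z.length), z.getD t false)) = [] := by
      rw [List.filter_eq_nil_iff]
      intro t ht
      obtain ⟨u, -, rfl⟩ := List.mem_map.1 ht
      simp
    rw [e1, e2, List.append_nil]
  rw [h2]
  apply List.ext_getElem
  · simp
  · intro t h1 h2
    simp only [List.getElem_map, List.getElem_range, Function.comp_apply,
      List.getD_eq_getElem?_getD, List.getElem?_eq_getElem h2, Option.getD_some]

section sim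

variable (O : Oracle) (Z : List Bool → List Bool → List Bool) (FV : List Bool → List Bool → Bool)

/-- The history after `i` questions. -/
def hist (y : List Bool) : ℕ → List Bool
  | 0 => []
  | i + 1 => hist y i ++ [O (Z y (hist y i))]

lemma hist_length (y : List Bool) (i : ℕ) : (hist O Z y i).length = i := by
  induction i with
  | zero => rfl
  | succ i ih =>
    rw [hist, List.length_append, ih]
    rfl

lemma hist_take (y : List Bool) (i n : ℕ) (h : n ≤ i) :
    (hist O Z y i).take n = hist O Z y n := by
  induction i with
  | zero =>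
    have : n = 0 := by omega
    subst this
    rfl
  | succ i ih =>
    rcases Nat.lt_or_ge n (i + 1) with h1 | h1
    · rw [hist, List.take_append_of_le_length (by rw [hist_length]; omega)]
      exact ih (by omega)
    · have : n = i + 1 := by omega
      subst this
      rw [List.take_of_length_le (by rw [hist_length])]

lemma hist_getElem (y : List Bool) (i n : ℕ) (h : n < (hist O Z y i).length) :
    (hist O Z y i)[n] = O (Z y ((hist O Z y i).take n)) := by
  rw [hist_length] at h
  have h1 := hist_take O Z y i (n + 1) h
  have h2 := hist_take O Z y i n h.le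
  rw [h2]
  have h3 : (hist O Z y i).take (n + 1) = (hist O Z y i).take n ++ [(hist O Z y i)[n]'(by
      rw [hist_length]; exact h)] := by
    rw [List.take_succ_eq_append_getElem]
  rw [h1, h2, hist] at h3
  have h4 := List.append_cancel_left h3
  simpa using h4.symm

variable {A E : Oracle} {Z FV}

theorem isFP_sim
    (h1 : ∀ y h t, E (ec y h (true :: t.bits)) = decide (t < (Z y h).length))
    (h2 : ∀ (y h : List Bool) (t : ℕ), E (ec y h (false :: t.bits)) = (Z y h).getD t false)
    (h3 : ∀ y h, E (ec y h []) = FV y h)
    (h4 : ∀ y h, (Z y h).length ≤ y.length) :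
    IsFP (join A E) (fun x => [FV (unpair x).2 (hist A Z (unpair x).2 x.length)]) := by
  have hask : IsFP (join A E) (fun z : List Bool => [A z]) := by
    have h := IsFP.tt (A := join A E) (Q := fun z : List Bool => [false :: z])
      (H := fun p => p.2) (NPC.Poly.cons (NPC.Poly.cons (NPC.Poly.const false) NPC.Poly.id)
        (NPC.Poly.const [])) (NPC.Poly.snd NPC.Poly.id)
    exact h
  have hr : ∀ b, IsFP (join A E) (fun s : List Bool => (rq b s).map E) := by
    intro b
    have h := IsFP.tt (A := join A E) (Q := fun s => (rq b s).map fun z => true :: z)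
      (H := fun p => p.2)
      (NPC.Poly.map (F := fun (_ : List Bool) (z : List Bool) => true :: z) (poly_rq b)
        (NPC.Poly.cons (NPC.Poly.const true) (NPC.Poly.snd NPC.Poly.id)))
      (NPC.Poly.snd NPC.Poly.id)
    refine (congrArg (IsFP (join A E)) (funext fun s => ?_)).mp h
    simp only [List.map_map]
    rfl
  have hz : IsFP (join A E) (fun s : List Bool => Z (unpair s).1 (unpair s).2) := by
    have h := IsFP.seq (hr true) (hr false) (φ := fun p => p.1) (ψ := fun p => cmb p.2.1 p.2.2)
      (NPC.Poly.fst NPC.Poly.id) (poly_cmb (NPC.Poly.fst (NPC.Poly.snd NPC.Poly.id))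
        (NPC.Poly.snd (NPC.Poly.snd NPC.Poly.id)))
    refine (congrArg (IsFP (join A E)) (funext fun s => ?_)).mp h
    show cmb ((rq true s).map E) ((rq false s).map E) = _
    unfold rq
    rw [List.map_map, List.map_map]
    have e1 : (E ∘ fun t : ℕ => ec (unpair s).1 (unpair s).2 (true :: t.bits)) =
        fun t => decide (t < (Z (unpair s).1 (unpair s).2).length) :=
      funext fun t => h1 _ _ t
    have e2 : (E ∘ fun t : ℕ => ec (unpair s).1 (unpair s).2 (false :: t.bits)) =
        fun t => (Z (unpair s).1 (unpair s).2).getD t false :=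
      funext fun t => h2 _ _ t
    rw [e1, e2]
    exact cmb_eq _ _ (h4 _ _)
  have hS : IsFP (join A E) (fun s : List Bool => pairBits (unpair s).1
      ((unpair s).2 ++ [A (Z (unpair s).1 (unpair s).2)])) :=
    IsFP.seq hz hask (φ := fun p => p.2)
      (ψ := fun p => pairBits (unpair p.1).1 ((unpair p.1).2 ++ p.2.2))
      (NPC.Poly.snd NPC.Poly.id)
      (Pool.Agent.H622R2.poly_pairBits ((NPC.Poly.fst poly_unpair).comp (NPC.Poly.fst NPC.Poly.id))
        (NPC.Poly.append ((NPC.Poly.snd poly_unpair).comp (NPC.Poly.fst NPC.Poly.id))
          (NPC.Poly.snd (NPC.Poly.snd NPC.Poly.id))))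
  set S : List Bool → List Bool := fun s => pairBits (unpair s).1
      ((unpair s).2 ++ [A (Z (unpair s).1 (unpair s).2)]) with hSd
  have hit : ∀ (y : List Bool) (i : ℕ), S^[i] (pairBits y []) = pairBits y (hist A Z y i) := by
    intro y i
    induction i with
    | zero => rfl
    | succ i ih =>
      rw [Function.iterate_succ_apply', ih]
      simp only [hSd, unpair_pairBits]
      rfl
  have hlen : ∀ x : List Bool, (unpair x).2.length ≤ x.length := by
    intro x
    have := Pool.Agent.H593R3.DST.unpair_len x
    omega
  have hloop := IsFP.loop hS (g := fun x => pairBits (unpair x).2 [])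
    (Pool.Agent.H622R2.poly_pairBits (NPC.Poly.snd poly_unpair) (NPC.Poly.const []))
    Polynomial.X (3 * Polynomial.X + 1) (by
      intro x i hi
      rw [Polynomial.eval_X] at hi
      rw [hit, length_pairBits, hist_length]
      have := hlen x
      simp only [Polynomial.eval_add, Polynomial.eval_mul, Polynomial.eval_ofNat,
        Polynomial.eval_X, Polynomial.eval_one]
      omega)
  have hfin : IsFP (join A E) (fun s : List Bool => [FV (unpair s).1 (unpair s).2]) := by
    have h := IsFP.tt (A := join A E)
      (Q := fun s : List Bool => [true :: ec (unpair s).1 (unpair s).2 []])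
      (H := fun p => p.2)
      (NPC.Poly.cons (NPC.Poly.cons (NPC.Poly.const true)
        (poly_ec (NPC.Poly.fst poly_unpair) (NPC.Poly.snd poly_unpair)
        (NPC.Poly.const []))) (NPC.Poly.const [])) (NPC.Poly.snd NPC.Poly.id)
    refine (congrArg (IsFP (join A E)) (funext fun s => ?_)).mp h
    simp only [List.map_cons, List.map_nil, join, h3]
  have h := IsFP.comp hfin hloop
  refine (congrArg (IsFP (join A E)) (funext fun x => ?_)).mp h
  simp only [hit, unpair_pairBits, Polynomial.eval_X]

end sim

end Pool.Agent.Y626.WC
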