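import Pool.Agent.H620R2.GaugeR.R1

/-! Every algorithm can be changed to an algorithm which always stops. -/

set_option autoImplicit false

namespace Pool.Agent.Y626.WC

open Pool.Agent.NPC Pool.Agent.H622R2 Pool.Agent.H620R2.Gauge

theorem exists_total (M : Alg) : ∃ M' : Alg, ∀ (A : Oracle) (x : List Bool),
    M'.out A x = some ((M.out A x).getD []) := by
  have hx : Pool.Agent.NPC.Poly (fun y => (unpair y).1) := NPC.Poly.fst poly_unpair
  have ha : Pool.Agent.NPC.Poly (fun y => (unpair y).2) := NPC.Poly.snd poly_unpair
  have hD : Pool.Agent.NPC.Poly (fun y => if M.p.eval (unpair y).1.length ≤ (unpair y).2.length then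
      ([] : List Bool) else M.D y) :=
    NPC.Poly.ite (NPC.Poly.decide_le (((UPoly.length hx).eval M.p).toPoly)
      (NPC.Poly.length ha)) (NPC.Poly.const []) (poly_of_polyTime M.poly)
  refine ⟨⟨_, polyTime_of_poly_list hD, M.p + 1⟩, fun A x => ?_⟩
  set M' : Alg := ⟨_, polyTime_of_poly_list hD, M.p + 1⟩ with hM'
  have hD' : ∀ a : List Bool, M'.D (pairBits x a) =
      if M.p.eval x.length ≤ a.length then [] else M.D (pairBits x a) := by
    intro a
    rw [hM']
    dsimp only
    rw [unpair_pairBits]
  have key : ∀ (n : ℕ) (a : List Bool), a.length + n = M.p.eval x.length →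
      M'.run A x (n + 1) a = some ((M.run A x n a).getD []) := by
    intro n
    induction n with
    | zero =>
      intro a h
      have e := hD' a
      rw [if_pos (by omega)] at e
      rw [A2.run_succ, e]
      simp [Alg.run]
    | succ n ih =>
      intro a h
      have e := hD' a
      rw [if_neg (by omega)] at e
      rw [A2.run_succ M', e, A2.run_succ M A x n a]
      by_cases h1 : (M.D (pairBits x a)).head? = some false
      · rw [if_pos h1, if_pos h1]
        exact ih _ (by rw [List.length_append, List.length_singleton]; omega)
      · rw [if_neg h1, if_neg h1]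
        rfl
  have h := key (M.p.eval x.length) [] (by simp)
  have e : (M.p + 1).eval x.length = M.p.eval x.length + 1 := by simp
  unfold Alg.out
  rw [← h]
  show M'.run A x ((M.p + 1).eval x.length) [] = _
  rw [e]

theorem isFP_total (A : Oracle) (M : Alg) : IsFP A (fun x => (M.out A x).getD []) := by
  obtain ⟨M', h⟩ := exists_total M
  exact ⟨M', h A⟩

end Pool.Agent.Y626.WC
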