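import Pool.Agent.Y626.WC.Main
import Pool.Agent.Y626.WR.FinalR

/-! `W[1] = FPT`, but the `W`-hierarchy is strict above `W[1]`. -/

set_option autoImplicit false

namespace Pool.Agent.Y626.WC

open MeasureTheory Pool.Agent.NPC Pool.Agent.H620R2.Gauge Pool.Agent.TH678.GC
  Pool.Agent.Y626.WG
open Pool.Agent.H628R3.RO (randomOracle prob)

/-- a true sentence (`b = true`) or a false one -/
def triv (b : Bool) : Inst := ⟨[[]], [], [], [], if b then [[]] else []⟩

theorem inW_of_inFPT {t : ℕ} {A : Oracle} {α : Type} [TEnc α] {κ : α → ℕ} {P : α → Prop}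
    (h : InFPT A κ P) : InW t A κ P := by
  classical
  obtain ⟨π, M, hπ, h⟩ := h
  have h0 : NPC.Poly (fun y : List Bool => decide (y = [true])) :=
    NPC.Poly.decide_eq NPC.Poly.id (NPC.Poly.const [true])
  have h1 : NPC.Poly (fun y : List Bool => if y = [true] then bits (triv true) else
      bits (triv false)) :=
    NPC.Poly.ite h0 (NPC.Poly.const _) (NPC.Poly.const _)
  obtain ⟨M', hM'⟩ := IsFP.comp (IsFP.of_poly (A := A) h1) (isFP_total A M)
  refine ⟨π, fun _ => 0, fun a => triv (decide (P a)), M', hπ, Computable.const 0, fun a => ?_⟩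
  obtain ⟨b, h2, h3⟩ := h a
  refine ⟨?_, ⟨⟨by simp [triv], by simp [triv]⟩, by simp [triv]⟩, by simp [triv, Inst.param], ?_⟩
  · rw [hM']
    beta_reduce
    rw [h2, Option.getD_some]
    by_cases hP : P a
    · rw [if_pos (by rw [h3.1 hP]), decide_eq_true hP]
    · rw [if_neg, decide_eq_false hP]
      rw [List.cons.injEq]
      intro hb
      exact hP (h3.2 hb.1)
  · show P a ↔ _ ∈ (if decide (P a) then ([[]] : List (List Bool)) else [])
    by_cases hP : P a
    · simp [hP, triv]
    · simp [hP]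

theorem final : ∃ E : Oracle, ∀ᵐ A ∂randomOracle,
    (∀ (α : Type) [TEnc α] (κ : α → ℕ) (P : α → Prop),
      InW 1 (join A E) κ P ↔ InFPT (join A E) κ P) ∧
    ∀ t : ℕ, 1 ≤ t →
      (∀ (α : Type) [TEnc α] (κ : α → ℕ) (P : α → Prop), InW t (join A E) κ P →
        InW (t + 1) (join A E) κ P ∧ InA t (join A E) κ P) ∧
      InW (t + 1) (join A E) (fun I : WInst (t + 1) => I.1.param)
        (fun I => I.1.Sat (join A E)) ∧
      ¬ InA t (join A E) (fun I : WInst (t + 1) => I.1.param)
        (fun I => I.1.Sat (join A E)) := by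
  obtain ⟨E, hE⟩ := collapse
  refine ⟨E, ?_⟩
  filter_upwards [hE, Pool.Agent.Y626.WR.main E] with A h1 h2
  exact ⟨fun α _ κ P => ⟨h1 α κ P, inW_of_inFPT⟩, h2⟩

end Pool.Agent.Y626.WC
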